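import Mathlib
import Pool.Agent.FB.Stmt
import Pool.Agent.FB.Extra
import Pool.Agent.FB.Asm
import Pool.Agent.FB.Lat.Fin
import Pool.Agent.FB.Fix.Main
import Pool.Agent.FB.Eig.Main
import Pool.Agent.FB.Psi1.Main
import Pool.Agent.FB.BC.D
import Pool.Agent.FB.Close.Main
import Pool.Agent.FB.Hopf.Main
import Pool.Agent.FB.GEO2.Geo

/-!
# MP_15d50e_gt: the first Steklov eigenspace of an embedded free boundary minimal surface need not
be the span of the coordinate functions

There is a properly embedded free boundary minimal surface in the closed unit ball of `ℝ⁸` (a torus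
with many small holes, close to a flat minimal torus of the unit sphere) with a Steklov eigenvalue
in `(0, 1/4)`, while the coordinate functions have the eigenvalue `1`.
-/

namespace Pool.Agent.Results.MP_15d50e_gt.NotFirstEigenspace

open _root_.FB

theorem result :
    ∃ S : Set (Eu 8), IsFBMS S ∧
      (∀ a : Eu 8, IsSteklov S 1 (fun x => inner ℝ a x)) ∧
      (∃ σ : ℝ, 0 < σ ∧ σ < 1 / 4 ∧ IsSteklovEigenvalue S σ) ∧
      firstSteklovEigenspace S ≠
        (Submodule.span ℝ (Set.range fun (i : Fin 8) (x : S) => (x : Eu 8) i) : Set (S → ℝ)) ∧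
      ∀ v ∈ firstSteklovEigenspace S,
        v ∈ (Submodule.span ℝ (Set.range fun (i : Fin 8) (x : S) => (x : Eu 8) i) :
          Submodule ℝ (S → ℝ)) → v = 0 := by
  obtain ⟨S, hS, hlin, ⟨σ, hσ0, hσ1, hσ⟩, hne⟩ := final_of
    (theoremM_of Lat.theoremLAT Pool.Agent.FB.Fix.theoremFIX Eig.theoremEIG psi1 BC.theoremBC
      CLOSE.close theoremHOPF) theoremGEO
  refine ⟨S, hS, hlin, ⟨σ, hσ0, hσ1, hσ⟩, ?_, ?_⟩
  · rw [← coordinateSpan_eq_span]
    exact hne
  · intro v hv hv'
    refine eigenspace_inter hS ⟨σ, hσ0, by linarith, hσ⟩ hv ?_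
    rw [coordinateSpan_eq_span]
    exact hv'

end Pool.Agent.Results.MP_15d50e_gt.NotFirstEigenspace
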